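import Pool.Agent.H74.OLP.Targets2

/-!
# Corner functions of even sets of the dual (PHI)
-/

set_option autoImplicit false
set_option linter.unusedSectionVars false

open scoped Classical
open Finset Pool.Agent.H74.OLP

namespace Pool.Agent.H13.OLP

theorem tau_ex (h1 : T_ZTF) (h2 : T_PCY) (V E F : Type) [Fintype V] [Fintype E] [Fintype F]
    (M : CMap V E F) (hM : M.OK) (x : E → R) (hx : M.ZT x) (f : F) :
    ∃ τ : ℤ → R, (∀ i, τ (i + M.d f) = τ i) ∧ (∀ i, τ (i + 1) = τ i + x (M.ed f i)) ∧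
      ((∀ e, M.OnF e f → x e = 0) → ∀ i, τ i = 0) := by
  by_cases hP : ∀ e, M.OnF e f → x e = 0
  · refine ⟨fun _ => 0, fun _ => rfl, fun i => ?_, fun _ _ => rfl⟩
    rw [hP _ ((hM.on _ _).2 ⟨i, rfl⟩), add_zero]
  · have h3 : ∀ i, x (M.ed f (i + M.d f)) = x (M.ed f i) := by
      intro i
      congr 1
      rw [hM.ed_eq]
      exact ⟨1, by ring⟩
    have h4 : ∑ i ∈ Finset.range (M.d f), x (M.ed f i) = 0 := by
      rw [← h1 V E F M hM x f]
      exact hx f
    obtain ⟨τ, ha, hb⟩ := h2 (M.d f) (fun i => x (M.ed f i))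
      (le_trans (by norm_num) (hM.d3 f)) h3 h4
    exact ⟨τ, ha, hb, fun h => absurd h hP⟩

theorem pf_PHI (h1 : T_ZTF) (h2 : T_PCY) : T_PHI := by
  intro V E F _ _ _ M hM x hx
  choose τ ha hb hc using tau_ex h1 h2 V E F M hM x hx
  have hper : ∀ f i j, (M.d f : ℤ) ∣ i - j → τ f i = τ f j := by
    intro f i j hd
    obtain ⟨k, hk⟩ := hd
    have h3 : Function.Periodic (τ f) (M.d f : ℤ) := ha f
    have h4 := h3.int_mul k j
    have h5 : i = j + k * (M.d f : ℤ) := by
      rw [mul_comm k, ← hk]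
      ring
    rw [h5]
    exact h4
  set θ : V → F → R := fun v f => if h : ∃ i, M.vt f i = v then τ f h.choose else 0 with hθ
  have hv : ∀ f i, θ (M.vt f i) f = τ f i := by
    intro f i
    have hex : ∃ j, M.vt f j = M.vt f i := ⟨i, rfl⟩
    have h3 : θ (M.vt f i) f = τ f hex.choose := by
      rw [hθ]
      exact dif_pos hex
    rw [h3]
    exact hper f _ _ ((hM.vt_eq f _ _).1 hex.choose_spec)
  have hst : ∀ e f, M.OnF e f → θ (M.s e) f + θ (M.t e) f = x e := by
    intro e f hef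
    obtain ⟨i, rfl⟩ := (hM.on e f).1 hef
    rcases hM.jn f i with ⟨hs, ht⟩ | ⟨ht, hs⟩
    · rw [hs, ht, hv, hv, hb]
      linear_combination R2 (τ f i)
    · rw [hs, ht, hv, hv, hb]
      linear_combination R2 (τ f i)
  refine ⟨θ, fun e => θ (M.s e) (M.l e) + θ (M.s e) (M.r e), fun e => ?_, fun v f hvf => ?_⟩
  · have h3 := hst e (M.l e) (Or.inl rfl)
    have h4 := hst e (M.r e) (Or.inr rfl)
    refine ⟨h3, h4, rfl, ?_⟩
    linear_combination h3 + h4 - R2 (θ (M.s e) (M.l e)) - R2 (θ (M.s e) (M.r e)) + R2 (x e)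
  · by_cases hex : ∃ i, M.vt f i = v
    · obtain ⟨i, rfl⟩ := hex
      rw [hv]
      exact hc f hvf i
    · rw [hθ]
      exact dif_neg hex

end Pool.Agent.H13.OLP
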